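import Pool.Agent.H95.GY.Targets

/-!
# MP_c39b0e_gt: basic facts on the norm (used in HC, ULM, NM)
-/

set_option autoImplicit false

open Filter Topology MeasureTheory Set
open scoped Pointwise

universe u v

namespace Pool.Agent.H74.GY

open Pool.Agent.H95.GY

section

variable {Q : Type u} [Group Q] [TopologicalSpace Q] [IsTopologicalGroup Q]

omit [TopologicalSpace Q] [IsTopologicalGroup Q] in
theorem abs_sub_le {ν : Q → ℝ} (inv : ∀ g, ν g⁻¹ = ν g) (mul : ∀ g h, ν (g * h) ≤ ν g + ν h)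
    (g h : Q) : |ν g - ν h| ≤ ν (g⁻¹ * h) := by
  rw [abs_le]
  constructor
  · have h1 := mul g (g⁻¹ * h)
    rw [mul_inv_cancel_left] at h1
    linarith
  · have h1 := mul h (h⁻¹ * g)
    rw [mul_inv_cancel_left] at h1
    have h2 : ν (h⁻¹ * g) = ν (g⁻¹ * h) := by
      rw [← inv (h⁻¹ * g), mul_inv_rev, inv_inv]
    linarith

theorem cont_of {ν : Q → ℝ} (inv : ∀ g, ν g⁻¹ = ν g) (mul : ∀ g h, ν (g * h) ≤ ν g + ν h)
    (nhd : ∀ ε > 0, {g | ν g < ε} ∈ 𝓝 (1 : Q)) : Continuous ν := by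
  rw [continuous_iff_continuousAt]
  intro x
  rw [ContinuousAt, Metric.tendsto_nhds]
  intro ε hε
  have h1 : Tendsto (fun y : Q => x⁻¹ * y) (𝓝 x) (𝓝 1) := by
    have h2 : Continuous fun y : Q => x⁻¹ * y := continuous_const.mul continuous_id
    have h3 := h2.tendsto x
    rwa [inv_mul_cancel] at h3
  filter_upwards [h1 (nhd ε hε)] with y hy
  have h4 := abs_sub_le inv mul x y
  rw [Real.dist_eq, abs_sub_comm]
  exact lt_of_le_of_lt h4 hy

theorem nu_cont {ν : Q → ℝ} {r C : ℝ} (h : PreG ν r C) : Continuous ν :=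
  cont_of h.inv h.mul h.nhd

omit [IsTopologicalGroup Q] in
theorem tendsto_one {ι : Type v} {ν : Q → ℝ} {r C : ℝ} (h : PreG ν r C) {l : Filter ι}
    {f : ι → Q} (hf : Tendsto (fun i => ν (f i)) l (𝓝 0)) : Tendsto f l (𝓝 1) := by
  intro U hU
  obtain ⟨ε, hε, hU'⟩ := h.small U hU
  have h1 : ∀ᶠ i in l, ν (f i) < ε := hf (Iio_mem_nhds hε)
  exact mem_map.2 (h1.mono fun i hi => hU' _ hi)

theorem nu_tendsto {ι : Type v} {ν : Q → ℝ} {r C : ℝ} (h : PreG ν r C) {l : Filter ι}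
    {f : ι → Q} {x : Q} (hf : Tendsto f l (𝓝 x)) :
    Tendsto (fun i => ν (f i * x⁻¹)) l (𝓝 0) := by
  have h1 : Tendsto (fun i => f i * x⁻¹) l (𝓝 (x * x⁻¹)) := hf.mul tendsto_const_nhds
  rw [mul_inv_cancel] at h1
  have h2 := ((nu_cont h).tendsto 1).comp h1
  rw [h.one] at h2
  exact h2

omit [IsTopologicalGroup Q] in
theorem exists_lim {ι : Type v} {ν : Q → ℝ} {r C : ℝ} (h : PreG ν r C) {ω : Ultrafilter ι}
    {f : ι → Q} (hf : ∀ᶠ i in ω, ν (f i) ≤ r) : ∃ x, Tendsto f ω (𝓝 x) := by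
  have h1 : ∃ x ∈ {g | ν g ≤ r}, (↑(ω.map f) : Filter Q) ≤ 𝓝 x := by
    apply h.cpt.ultrafilter_le_nhds
    rw [le_principal_iff]
    exact hf
  obtain ⟨x, -, hx⟩ := h1
  exact ⟨x, hx⟩

theorem ops_of {ν : Q → ℝ} {r C : ℝ} (h : PreG ν r C) {X : ℝ → Q} {ρ : ℝ}
    (hadd : ∀ s t, X (s + t) = X s * X t) (hb : ∀ t, ν (X t) ≤ ρ * |t|) : IsOPS X := by
  refine ⟨?_, hadd⟩
  rw [continuous_iff_continuousAt]
  intro t
  have h0 : Tendsto (fun s : ℝ => ρ * |s - t|) (𝓝 t) (𝓝 0) := by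
    have h1 : Continuous fun s : ℝ => ρ * |s - t| := by fun_prop
    have h2 := h1.tendsto t
    simpa using h2
  have h3 : Tendsto (fun s : ℝ => ν (X (s - t))) (𝓝 t) (𝓝 0) :=
    squeeze_zero (fun s => h.nonneg _) (fun s => hb _) h0
  have h4 := tendsto_one h h3
  have h5 : Tendsto (fun s : ℝ => X (s - t) * X t) (𝓝 t) (𝓝 (1 * X t)) :=
    h4.mul tendsto_const_nhds
  rw [one_mul] at h5
  refine h5.congr fun s => ?_
  rw [← hadd, sub_add_cancel]

end

section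

variable {Q : Type u} [Group Q]

theorem deriv_unique {φ : Q → ℝ} {X : ℝ → Q} {D D' : Q → ℝ} {c t₀ c' t₁ : ℝ}
    (ht₀ : 0 < t₀) (ht₁ : 0 < t₁)
    (h : ∀ (t : ℝ) (x : Q), |t| ≤ t₀ → |φ (X t * x) - φ x - t * D x| ≤ c * t ^ 2)
    (h' : ∀ (t : ℝ) (x : Q), |t| ≤ t₁ → |φ (X t * x) - φ x - t * D' x| ≤ c' * t ^ 2) :
    D = D' := by
  funext x
  have key : ∀ t : ℝ, 0 < t → t ≤ min t₀ t₁ → |D x - D' x| ≤ (c + c') * t := by
    intro t ht htm
    have e1 := h t x (by rw [abs_of_pos ht]; exact htm.trans (min_le_left _ _))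
    have e2 := h' t x (by rw [abs_of_pos ht]; exact htm.trans (min_le_right _ _))
    have e3 : |t * (D x - D' x)| ≤ (c + c') * t ^ 2 := by
      have : t * (D x - D' x) = (φ (X t * x) - φ x - t * D' x) - (φ (X t * x) - φ x - t * D x) := by
        ring
      rw [this]
      refine (abs_sub _ _).trans ?_
      linarith
    rw [abs_mul, abs_of_pos ht] at e3
    have e4 : t * |D x - D' x| ≤ t * ((c + c') * t) := by
      calc t * |D x - D' x| ≤ (c + c') * t ^ 2 := e3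
        _ = t * ((c + c') * t) := by ring
    exact le_of_mul_le_mul_left e4 ht
  have hlim : Tendsto (fun t : ℝ => (c + c') * t) (𝓝[>] 0) (𝓝 0) := by
    have h1 : Continuous fun t : ℝ => (c + c') * t := by fun_prop
    have h2 := h1.tendsto 0
    rw [mul_zero] at h2
    exact h2.mono_left nhdsWithin_le_nhds
  have hle : |D x - D' x| ≤ 0 := by
    refine ge_of_tendsto hlim ?_
    have hm : 0 < min t₀ t₁ := lt_min ht₀ ht₁
    filter_upwards [Ioc_mem_nhdsGT hm] with t ht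
    exact key t ht.1 ht.2
  have := abs_nonneg (D x - D' x)
  have h0 : |D x - D' x| = 0 := le_antisymm hle this
  have := abs_eq_zero.1 h0
  linarith

end

end Pool.Agent.H74.GY
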