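import Pool.Agent.H74.GY.Base

/-!
# MP_c39b0e_gt: module HC (compactness of the space of one-parameter groups)
-/

set_option autoImplicit false

open Filter Topology MeasureTheory Set
open scoped Pointwise

universe u v

namespace Pool.Agent.H74.GY

open Pool.Agent.H95.GY

theorem pf_HC (hHB : T_HB.{u}) (hDD : T_DD.{u}) : T_HC.{u} := by
  intro Q _ _ _ _ ν φ r C hG X D M hX hM ω
  have hP : PreG ν r C := hG.toPreG
  have hr := hP.r_pos
  have hC : 0 < C := lt_of_lt_of_le one_pos hP.C_pos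
  have hM0 : 0 ≤ M := (abs_nonneg _).trans (hM 0 1)
  obtain ⟨ρ, hρdef⟩ : ∃ ρ : ℝ, ρ = C * M := ⟨_, rfl⟩
  have hρ : 0 ≤ ρ := by rw [hρdef]; positivity
  have hb : ∀ i t, ν (X i t) ≤ ρ * |t| := by
    intro i t
    rw [hρdef]
    exact hHB Q ν φ r C hG (X i) (D i) M (hX i) (hM i) t
  have hex : ∀ t, ∃ x, Tendsto (fun i => X i t) ω (𝓝 x) := by
    intro t
    obtain ⟨m, hm⟩ := exists_nat_gt (ρ * |t| / r)
    have hm0 : (0 : ℝ) < m := lt_of_le_of_lt (by positivity) hm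
    have hmne : m ≠ 0 := by
      rintro rfl
      simp at hm0
    have h1 : ∀ᶠ i in (ω : Filter ℕ), ν (X i (t / m)) ≤ r := by
      refine Eventually.of_forall fun i => (hb i _).trans ?_
      rw [abs_div, abs_of_pos hm0, ← mul_div_assoc, div_le_iff₀ hm0]
      rw [div_lt_iff₀ hr] at hm
      linarith
    obtain ⟨y, hy⟩ := exists_lim hP h1
    refine ⟨y ^ m, (hy.pow m).congr fun i => ?_⟩
    exact (hX i).1.div hmne t
  choose X₀ hX₀ using hex
  have hadd : ∀ s t, X₀ (s + t) = X₀ s * X₀ t := by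
    intro s t
    refine tendsto_nhds_unique (hX₀ (s + t)) ?_
    exact ((hX₀ s).mul (hX₀ t)).congr fun i => ((hX i).1.add s t).symm
  have hb₀ : ∀ t, ν (X₀ t) ≤ ρ * |t| := by
    intro t
    have h1 := ((nu_cont hP).tendsto (X₀ t)).comp (hX₀ t)
    exact le_of_tendsto h1 (Eventually.of_forall fun i => hb i t)
  have hops : IsOPS X₀ := ops_of hP hadd hb₀
  obtain ⟨C', hC', hD'⟩ := hDD Q ν φ r C hG
  obtain ⟨D₀, -, hD₀⟩ := hD' X₀ ρ hops hρ hb₀
  have hr1 : 0 < r / (ρ + 1) := by positivity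
  have hsmall : ∀ t : ℝ, |t| ≤ r / (ρ + 1) → ρ * |t| ≤ r := by
    intro t ht
    rw [le_div_iff₀ (by positivity)] at ht
    nlinarith [abs_nonneg t]
  have hDi : ∀ i (t : ℝ) (x : Q), ρ * |t| ≤ r →
      |φ (X i t * x) - φ x - t * D i x| ≤ C' * ρ ^ 2 * t ^ 2 := by
    intro i
    obtain ⟨Di, -, hDi⟩ := hD' (X i) ρ (hX i).1 hρ (hb i)
    obtain ⟨c, -, t₀, ht₀, hc⟩ := (hX i).2
    have : D i = Di := deriv_unique (X := X i) (φ := φ) (D := D i) (D' := Di) ht₀ hr1 hc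
      (fun t x ht => hDi t x (hsmall t ht))
    rw [this]
    exact hDi
  refine ⟨X₀, D₀, ⟨hops, C' * ρ ^ 2 + 1, by positivity, r / (ρ + 1), hr1, fun t x ht => ?_⟩,
    hX₀, fun ε hε => ?_⟩
  · refine (hD₀ t x (hsmall t ht)).trans ?_
    nlinarith [sq_nonneg t]
  · obtain ⟨t, htdef⟩ : ∃ t, t = min (r / (ρ + 1)) (ε / (4 * C' * ρ ^ 2 + 1)) := ⟨_, rfl⟩
    have hq : 0 < 4 * C' * ρ ^ 2 + 1 := by positivity
    have ht0 : 0 < t := by
      rw [htdef]
      exact lt_min hr1 (div_pos hε hq)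
    have ht1 : |t| ≤ r / (ρ + 1) := by
      rw [abs_of_pos ht0, htdef]
      exact min_le_left _ _
    have ht2 : 4 * C' * ρ ^ 2 * t + t ≤ ε := by
      have : t ≤ ε / (4 * C' * ρ ^ 2 + 1) := by
        rw [htdef]
        exact min_le_right _ _
      rw [le_div_iff₀ hq] at this
      linarith
    have h1 := nu_tendsto hP (hX₀ t)
    have h2 : ∀ᶠ i in (ω : Filter ℕ), ν (X i t * (X₀ t)⁻¹) < t * ε / (2 * C) :=
      h1 (Iio_mem_nhds (by positivity))
    filter_upwards [h2] with i hi x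
    have e1 := hDi i t x (hsmall t ht1)
    have e2 := hD₀ t x (hsmall t ht1)
    have e3 := hG.lip (X i t * (X₀ t)⁻¹) (X₀ t * x)
    have e4 : X i t * (X₀ t)⁻¹ * (X₀ t * x) = X i t * x := by group
    rw [e4] at e3
    have e5 : t * (D i x - D₀ x) = (φ (X i t * x) - φ (X₀ t * x)) -
        (φ (X i t * x) - φ x - t * D i x) + (φ (X₀ t * x) - φ x - t * D₀ x) := by ring
    have e6 : |t * (D i x - D₀ x)| ≤ C * ν (X i t * (X₀ t)⁻¹) + C' * ρ ^ 2 * t ^ 2 +
        C' * ρ ^ 2 * t ^ 2 := by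
      rw [e5]
      refine (abs_add_le _ _).trans (add_le_add ((abs_sub _ _).trans (add_le_add e3 e1)) e2)
    have e7 : C * ν (X i t * (X₀ t)⁻¹) ≤ t * (ε / 2) := by
      have := mul_le_mul_of_nonneg_left hi.le hC.le
      refine this.trans (le_of_eq ?_)
      field_simp
    rw [abs_mul, abs_of_pos ht0] at e6
    have e8 : t * |D i x - D₀ x| ≤ t * ε := by
      have : 4 * C' * ρ ^ 2 * t * t ≤ ε * t := by nlinarith
      nlinarith
    exact le_of_mul_le_mul_left e8 ht0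

end Pool.Agent.H74.GY
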