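import Pool.Agent.H74.GY.Base

/-!
# MP_c39b0e_gt: module NM (the norm of a group without small subgroups)
-/

set_option autoImplicit false

open Filter Topology MeasureTheory Set
open scoped Pointwise

universe u v

namespace Pool.Agent.H74.GY

open Pool.Agent.H95.GY

section Nrm

variable {Q : Type u} [Group Q]

/-- the largest subadditive function below `e` -/
noncomputable def nrm (e : Q → ℝ) (g : Q) : ℝ :=
  sInf {s : ℝ | ∃ l : List Q, l.prod = g ∧ (l.map e).sum = s}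

theorem sum_nonneg' {e : Q → ℝ} (he : ∀ g, 0 ≤ e g) (l : List Q) : 0 ≤ (l.map e).sum := by
  apply List.sum_nonneg
  intro x hx
  obtain ⟨g, -, rfl⟩ := List.mem_map.1 hx
  exact he g

theorem nrm_bdd {e : Q → ℝ} (he : ∀ g, 0 ≤ e g) (g : Q) :
    BddBelow {s : ℝ | ∃ l : List Q, l.prod = g ∧ (l.map e).sum = s} := by
  refine ⟨0, ?_⟩
  rintro s ⟨l, -, rfl⟩
  exact sum_nonneg' he l

theorem nrm_nonempty (e : Q → ℝ) (g : Q) :
    {s : ℝ | ∃ l : List Q, l.prod = g ∧ (l.map e).sum = s}.Nonempty :=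
  ⟨_, [g], by simp, rfl⟩

theorem nrm_le {e : Q → ℝ} (he : ∀ g, 0 ≤ e g) {g : Q} {l : List Q} (hl : l.prod = g) :
    nrm e g ≤ (l.map e).sum :=
  csInf_le (nrm_bdd he g) ⟨l, hl, rfl⟩

theorem nrm_le_self {e : Q → ℝ} (he : ∀ g, 0 ≤ e g) (g : Q) : nrm e g ≤ e g := by
  have := nrm_le he (g := g) (l := [g]) (by simp)
  simpa using this

theorem nrm_nonneg {e : Q → ℝ} (he : ∀ g, 0 ≤ e g) (g : Q) : 0 ≤ nrm e g := by
  apply le_csInf (nrm_nonempty e g)
  rintro s ⟨l, -, rfl⟩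
  exact sum_nonneg' he l

theorem nrm_one {e : Q → ℝ} (he : ∀ g, 0 ≤ e g) : nrm e 1 = 0 := by
  refine le_antisymm ?_ (nrm_nonneg he 1)
  have := nrm_le he (g := (1 : Q)) (l := []) (by simp)
  simpa using this

theorem exists_of_nrm_lt {e : Q → ℝ} {g : Q} {x : ℝ} (h : nrm e g < x) :
    ∃ l : List Q, l.prod = g ∧ (l.map e).sum < x := by
  obtain ⟨s, ⟨l, hl, rfl⟩, hs⟩ := exists_lt_of_csInf_lt (nrm_nonempty e g) h
  exact ⟨l, hl, hs⟩

theorem nrm_mul {e : Q → ℝ} (he : ∀ g, 0 ≤ e g) (g h : Q) :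
    nrm e (g * h) ≤ nrm e g + nrm e h := by
  refine le_of_forall_pos_le_add fun ε hε => ?_
  obtain ⟨l, hl, hl'⟩ := exists_of_nrm_lt (e := e) (g := g) (x := nrm e g + ε / 2) (by linarith)
  obtain ⟨m, hm, hm'⟩ := exists_of_nrm_lt (e := e) (g := h) (x := nrm e h + ε / 2) (by linarith)
  have h1 := nrm_le he (g := g * h) (l := l ++ m) (by rw [List.prod_append, hl, hm])
  rw [List.map_append, List.sum_append] at h1
  linarith

theorem nrm_inv_le {e : Q → ℝ} (he : ∀ g, 0 ≤ e g) (hi : ∀ g, e g⁻¹ = e g) (g : Q) :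
    nrm e g⁻¹ ≤ nrm e g := by
  apply le_csInf (nrm_nonempty e g)
  rintro s ⟨l, hl, rfl⟩
  have h1 := nrm_le he (g := g⁻¹) (l := (l.map fun x => x⁻¹).reverse)
    (by rw [← hl, List.prod_inv_reverse])
  refine h1.trans (le_of_eq ?_)
  rw [List.map_reverse, List.sum_reverse, List.map_map]
  congr 1
  exact List.map_congr_left fun x _ => hi x

theorem nrm_inv {e : Q → ℝ} (he : ∀ g, 0 ≤ e g) (hi : ∀ g, e g⁻¹ = e g) (g : Q) :
    nrm e g⁻¹ = nrm e g := by
  refine le_antisymm (nrm_inv_le he hi g) ?_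
  have := nrm_inv_le he hi g⁻¹
  rwa [inv_inv] at this

end Nrm

section Esc

variable {Q : Type u} [Group Q] [TopologicalSpace Q] {U : Set Q}

theorem esc_bdd (U : Set Q) (g : Q) :
    BddBelow {x : ℝ | ∃ n : ℕ, x = 1 / ((n : ℝ) + 1) ∧ ∀ i ≤ n, g ^ i ∈ U} := by
  refine ⟨0, ?_⟩
  rintro x ⟨n, rfl, -⟩
  positivity

theorem esc_nonempty (hU : Nb U) (g : Q) :
    {x : ℝ | ∃ n : ℕ, x = 1 / ((n : ℝ) + 1) ∧ ∀ i ≤ n, g ^ i ∈ U}.Nonempty := by
  refine ⟨_, 0, rfl, fun i hi => ?_⟩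
  rw [Nat.le_zero.1 hi, pow_zero]
  exact mem_of_mem_nhds hU.nhd

theorem esc_nonneg (U : Set Q) (g : Q) : 0 ≤ esc U g := by
  apply Real.sInf_nonneg
  rintro x ⟨n, rfl, -⟩
  positivity

theorem esc_le {g : Q} {n : ℕ} (h : ∀ i ≤ n, g ^ i ∈ U) : esc U g ≤ 1 / ((n : ℝ) + 1) :=
  csInf_le (esc_bdd U g) ⟨n, rfl, h⟩

theorem esc_le_one (hU : Nb U) (g : Q) : esc U g ≤ 1 := by
  have h1 : esc U g ≤ 1 / (((0 : ℕ) : ℝ) + 1) := esc_le fun i hi => by
    rw [Nat.le_zero.1 hi, pow_zero]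
    exact mem_of_mem_nhds hU.nhd
  simpa using h1

theorem esc_lt (hU : Nb U) {g : Q} {x : ℝ} (h : esc U g < x) :
    ∃ n : ℕ, 1 / ((n : ℝ) + 1) < x ∧ ∀ i ≤ n, g ^ i ∈ U := by
  obtain ⟨s, ⟨n, rfl, hn⟩, hs⟩ := exists_lt_of_csInf_lt (esc_nonempty hU g) h
  exact ⟨n, hs, hn⟩

theorem eq_one_of (hU : Nb U) {g : Q} (h : ∀ i : ℕ, g ^ i ∈ U) : g = 1 := by
  have h1 : Subgroup.zpowers g = ⊥ := by
    apply hU.nss
    intro x hx
    obtain ⟨k, rfl⟩ := Subgroup.mem_zpowers_iff.1 hx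
    rcases Int.eq_nat_or_neg k with ⟨n, rfl | rfl⟩
    · rw [zpow_natCast]
      exact h n
    · rw [zpow_neg, zpow_natCast]
      exact hU.symm _ (h n)
  exact Subgroup.zpowers_eq_bot.1 h1

theorem esc_eq (hU : Nb U) {g : Q} (hg : g ≠ 1) :
    ∃ n : ℕ, esc U g = 1 / ((n : ℝ) + 1) ∧ (∀ i ≤ n, g ^ i ∈ U) ∧ g ^ (n + 1) ∉ U := by
  classical
  have h1 : ∃ i : ℕ, g ^ i ∉ U := by
    by_contra h
    push Not at h
    exact hg (eq_one_of hU h)
  have h2 := Nat.find_spec h1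
  have h3 : ∀ i < Nat.find h1, g ^ i ∈ U := fun i hi => by
    have := Nat.find_min h1 hi
    push Not at this
    exact this
  obtain ⟨k, hk⟩ : ∃ k, Nat.find h1 = k + 1 := by
    refine Nat.exists_eq_succ_of_ne_zero fun h0 => ?_
    rw [h0, pow_zero] at h2
    exact h2 (mem_of_mem_nhds hU.nhd)
  rw [hk] at h2 h3
  refine ⟨k, ?_, fun i hi => h3 i (by omega), h2⟩
  refine le_antisymm (esc_le fun i hi => h3 i (by omega)) ?_
  apply le_csInf (esc_nonempty hU g)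
  rintro x ⟨n, rfl, hn⟩
  have h4 : n ≤ k := by
    by_contra hlt
    push Not at hlt
    exact h2 (hn (k + 1) hlt)
  have h5 : (n : ℝ) ≤ k := by exact_mod_cast h4
  have h6 : (0 : ℝ) < (n : ℝ) + 1 := by positivity
  exact one_div_le_one_div_of_le h6 (by linarith)

theorem esc_inv (hU : Nb U) (g : Q) : esc U g⁻¹ = esc U g := by
  unfold esc
  congr 1
  ext x
  constructor
  · rintro ⟨n, hx, hn⟩
    refine ⟨n, hx, fun i hi => ?_⟩
    have := hU.symm _ (hn i hi)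
    rwa [inv_pow, inv_inv] at this
  · rintro ⟨n, hx, hn⟩
    refine ⟨n, hx, fun i hi => ?_⟩
    rw [inv_pow]
    exact hU.symm _ (hn i hi)

end Esc

section

variable {Q : Type u} [Group Q] [TopologicalSpace Q] [IsTopologicalGroup Q]

theorem exists_nb [LocallyCompactSpace Q] [T2Space Q] (h : NSS Q) : ∃ U : Set Q, Nb U := by
  obtain ⟨O, hO, h1, hH⟩ := h
  have h2 : O ∈ 𝓝 (1 : Q) := hO.mem_nhds (h1 (by simp))
  obtain ⟨K, hK1, hKO, hKc⟩ := local_compact_nhds h2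
  refine ⟨K ∩ K⁻¹, hKc.inter_right hKc.isClosed.inv, inter_mem hK1 (inv_mem_nhds_one _ hK1),
    fun g hg => ⟨?_, ?_⟩, fun H hHK => ?_⟩
  · exact hg.2
  · rw [Set.mem_inv, inv_inv]
    exact hg.1
  · exact le_bot_iff.1 (hH H fun x hx => hKO (hHK hx).1)

theorem nhd_pow {U : Set Q} (hU : U ∈ 𝓝 (1 : Q)) (n : ℕ) :
    {g : Q | ∀ i ≤ n, g ^ i ∈ U} ∈ 𝓝 (1 : Q) := by
  have h1 : ∀ i : ℕ, {g : Q | g ^ i ∈ U} ∈ 𝓝 (1 : Q) := by
    intro i
    have h2 : Continuous fun g : Q => g ^ i := continuous_pow i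
    have h3 := h2.tendsto 1
    simp only [one_pow] at h3
    exact h3 hU
  have h4 : {g : Q | ∀ i ≤ n, g ^ i ∈ U} = ⋂ i ∈ Finset.range (n + 1), {g : Q | g ^ i ∈ U} := by
    ext g
    simp only [mem_setOf_eq, mem_iInter, Finset.mem_range]
    exact ⟨fun h i hi => h i (by omega), fun h i hi => h i (by omega)⟩
  rw [h4]
  exact (Filter.biInter_finset_mem _).2 fun i _ => h1 i

end

section

variable {Q : Type u} [Group Q] [TopologicalSpace Q]

/-- the lemma of Gleason gives a lower bound of the norm -/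
theorem nrm_lower {U : Set Q} {c : ℝ} (hc : 0 < c)
    (h : ∀ l : List Q, (l.map (esc U)).sum ≤ c → l.prod ∈ U) (g : Q) :
    c * esc U g ≤ nrm (esc U) g := by
  apply le_csInf (nrm_nonempty _ g)
  rintro s ⟨l, hl, rfl⟩
  have hs := sum_nonneg' (esc_nonneg U) l
  generalize hsd : (l.map (esc U)).sum = s at hs ⊢
  have h1 : ∀ i : ℕ, i * s ≤ c → g ^ i ∈ U := by
    intro i hi
    have h2 := h (List.replicate i l).flatten (by
      rw [List.map_flatten, List.sum_flatten, List.map_map, List.map_replicate,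
        List.sum_replicate, Function.comp, hsd, nsmul_eq_mul]
      exact hi)
    rwa [List.prod_flatten, List.map_replicate, List.prod_replicate, hl] at h2
  rcases hs.lt_or_eq with hs | hs
  · have h3 : esc U g ≤ 1 / ((⌊c / s⌋₊ : ℝ) + 1) := by
      apply esc_le
      intro i hi
      apply h1
      have h4 : (i : ℝ) ≤ ⌊c / s⌋₊ := by exact_mod_cast hi
      have h5 : (⌊c / s⌋₊ : ℝ) ≤ c / s := Nat.floor_le (by positivity)
      have h6 := h4.trans h5
      rwa [le_div_iff₀ hs] at h6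
    have h7 : c / s < (⌊c / s⌋₊ : ℝ) + 1 := Nat.lt_floor_add_one _
    have h8 : 1 / ((⌊c / s⌋₊ : ℝ) + 1) ≤ s / c := by
      rw [div_le_div_iff₀ (by positivity) hc, one_mul]
      rw [div_lt_iff₀ hs] at h7
      linarith
    have h9 := h3.trans h8
    rw [le_div_iff₀ hc] at h9
    linarith
  · have h3 : ∀ n : ℕ, esc U g ≤ 1 / ((n : ℝ) + 1) := fun n => esc_le fun i _ => h1 i (by
      rw [← hs, mul_zero]
      exact hc.le)
    have h4 : esc U g ≤ 0 := by
      refine le_of_forall_pos_le_add fun ε hε => ?_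
      obtain ⟨n, hn⟩ := exists_nat_one_div_lt hε
      rw [zero_add]
      exact (h3 n).trans hn.le
    rw [← hs]
    nlinarith

end

theorem pf_NM (hN1 : T_N1.{u}) (hN2 : T_N2.{u}) : T_NM.{u} := by
  intro Q _ _ _ _ _ hQ
  obtain ⟨U, hU⟩ := exists_nb hQ
  obtain ⟨c₀, hc₀, hcU₀⟩ := hN2 Q U hU
  obtain ⟨c, hc, hc1, hcU⟩ : ∃ c : ℝ, 0 < c ∧ c ≤ 1 ∧
      ∀ l : List Q, (l.map (esc U)).sum ≤ c → l.prod ∈ U :=
    ⟨min c₀ 1, lt_min hc₀ one_pos, min_le_right _ _, fun l hl =>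
      hcU₀ l (hl.trans (min_le_left _ _))⟩
  have hlow := nrm_lower hc hcU
  have he0 := esc_nonneg U
  have hinv : ∀ g : Q, nrm (esc U) g⁻¹ = nrm (esc U) g := nrm_inv he0 (esc_inv hU)
  have hmul : ∀ g h : Q, nrm (esc U) (g * h) ≤ nrm (esc U) g + nrm (esc U) h := nrm_mul he0
  have hself : ∀ g : Q, nrm (esc U) g ≤ esc U g := nrm_le_self he0
  have hnn : ∀ g : Q, 0 ≤ nrm (esc U) g := nrm_nonneg he0
  have hone : nrm (esc U) 1 = 0 := nrm_one he0
  generalize nrm (esc U) = ν at hlow hinv hmul hself hnn hone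
  have hnhd : ∀ ε > 0, {g | ν g < ε} ∈ 𝓝 (1 : Q) := by
    intro ε hε
    obtain ⟨n, hn⟩ := exists_nat_one_div_lt hε
    filter_upwards [nhd_pow hU.nhd n] with g hg
    exact ((hself g).trans (esc_le hg)).trans_lt hn
  have hcont : Continuous ν := cont_of hinv hmul hnhd
  obtain ⟨V, hV, hVU⟩ := exists_nhds_one_split hU.nhd
  obtain ⟨ε₁, hε₁, hN₁⟩ := hN1 Q U hU V hV
  obtain ⟨ε₀, hε₀, hε₀1, hN₀⟩ : ∃ ε : ℝ, 0 < ε ∧ ε ≤ 1 ∧ ∀ (g : Q) (n : ℕ),
      (∀ i ≤ n, g ^ i ∈ U) → ∀ i : ℕ, (i : ℝ) ≤ ε * n → g ^ i ∈ V :=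
    ⟨min ε₁ 1, lt_min hε₁ one_pos, min_le_right _ _, fun g n hg i hi =>
      hN₁ g n hg i (hi.trans (mul_le_mul_of_nonneg_right (min_le_left _ _)
        (Nat.cast_nonneg _)))⟩
  have hrU : ∀ g, ν g ≤ c * ε₀ / 2 → g ∈ U := by
    intro g hg
    have h1 : c * esc U g ≤ c * (ε₀ / 2) := by
      refine (hlow g).trans (hg.trans (le_of_eq ?_))
      ring
    have h2 := le_of_mul_le_mul_left h1 hc
    obtain ⟨n, hn, hnU⟩ := esc_lt hU (g := g) (x := 1) (by linarith)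
    have h3 : 1 ≤ n := by
      by_contra h
      have : n = 0 := by omega
      subst this
      simp at hn
    have := hnU 1 h3
    rwa [pow_one] at this
  have hcpt : IsCompact {g | ν g ≤ c * ε₀ / 2} :=
    hU.compact.of_isClosed_subset (isClosed_le hcont continuous_const) hrU
  -- the constant of conjugation
  have hconj₀ : ∃ V' ∈ 𝓝 (1 : Q), ∀ v ∈ V', ∀ h, ν h ≤ c * ε₀ / 2 → h * v * h⁻¹ ∈ U := by
    have h1 : ∀ᶠ v in 𝓝 (1 : Q), ∀ h ∈ {g | ν g ≤ c * ε₀ / 2}, h * v * h⁻¹ ∈ U := by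
      apply hcpt.eventually_forall_of_forall_eventually
      intro h _
      have h2 : Continuous fun z : Q × Q => z.2 * z.1 * z.2⁻¹ :=
        (continuous_snd.mul continuous_fst).mul continuous_snd.inv
      have h3 := h2.tendsto (1, h)
      simp only [mul_one, mul_inv_cancel] at h3
      exact h3 hU.nhd
    exact ⟨_, h1, fun v hv h hh => hv h hh⟩
  obtain ⟨V', hV', hV'U⟩ := hconj₀
  obtain ⟨ε₂, hε₂, hN₂⟩ := hN1 Q U hU V' hV'
  obtain ⟨ε₃, hε₃, hε₃1, hN₃⟩ : ∃ ε : ℝ, 0 < ε ∧ ε ≤ 1 ∧ ∀ (g : Q) (n : ℕ),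
      (∀ i ≤ n, g ^ i ∈ U) → ∀ i : ℕ, (i : ℝ) ≤ ε * n → g ^ i ∈ V' :=
    ⟨min ε₂ 1, lt_min hε₂ one_pos, min_le_right _ _, fun g n hg i hi =>
      hN₂ g n hg i (hi.trans (mul_le_mul_of_nonneg_right (min_le_left _ _)
        (Nat.cast_nonneg _)))⟩
  have hC1 : 2 / (c * ε₀) ≤ max 1 (max (2 / (c * ε₀)) (2 / (c * ε₃))) :=
    (le_max_left _ _).trans (le_max_right _ _)
  have hC2 : 2 / (c * ε₃) ≤ max 1 (max (2 / (c * ε₀)) (2 / (c * ε₃))) :=
    (le_max_right _ _).trans (le_max_right _ _)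
  refine ⟨ν, c * ε₀ / 2, max 1 (max (2 / (c * ε₀)) (2 / (c * ε₃))),
    { r_pos := by positivity
      C_pos := le_max_left _ _
      nonneg := hnn
      le_one := fun g => (hself g).trans (esc_le_one hU g)
      one := hone
      inv := hinv
      mul := hmul
      small := ?_
      nhd := hnhd
      cpt := hcpt
      esc := ?_
      conj := ?_ }⟩
  · intro W hW
    obtain ⟨ε', hε', hNW⟩ := hN1 Q U hU W hW
    have hm : 0 < min 1 ε' := lt_min one_pos hε'
    refine ⟨c * (min 1 ε' / 4), by positivity, fun g hg => ?_⟩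
    have h1 : esc U g < min 1 ε' / 4 := lt_of_mul_lt_mul_left ((hlow g).trans_lt hg) hc.le
    obtain ⟨n, hn, hnU⟩ := esc_lt hU h1
    have hn1 : (0 : ℝ) < (n : ℝ) + 1 := by positivity
    rw [div_lt_iff₀ hn1] at hn
    have h2 : min 1 ε' ≤ 1 := min_le_left _ _
    have h3 : min 1 ε' ≤ ε' := min_le_right _ _
    have h4 := hNW g n hnU 1 (by
      have : min 1 ε' * n ≤ ε' * n := mul_le_mul_of_nonneg_right h3 (Nat.cast_nonneg _)
      push_cast
      nlinarith)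
    rwa [pow_one] at h4
  · intro g n hgn
    rcases Nat.eq_zero_or_pos n with rfl | hn
    · simp only [Nat.cast_zero, zero_mul, pow_zero, hone, mul_zero, le_refl]
    by_cases hg1 : g = 1
    · subst hg1
      rw [one_pow, hone]
      simp
    obtain ⟨N, hN, hNU, hNn⟩ := esc_eq hU hg1
    have hn1 : (1 : ℝ) ≤ n := by exact_mod_cast hn
    have hN1' : (0 : ℝ) < (N : ℝ) + 1 := by positivity
    have h1 : (n : ℝ) ≤ ε₀ * (N + 1) / 2 := by
      have h2 := hlow g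
      rw [hN] at h2
      have h3 : (n : ℝ) * (c * (1 / ((N : ℝ) + 1))) ≤ c * ε₀ / 2 :=
        (mul_le_mul_of_nonneg_left h2 (by positivity)).trans hgn
      have h4 : (n : ℝ) * (c * (1 / ((N : ℝ) + 1))) = c * (n / (N + 1)) := by ring
      rw [h4] at h3
      have h5 : (n : ℝ) / (N + 1) ≤ ε₀ / 2 := by
        have h6 : c * (n / (N + 1)) ≤ c * (ε₀ / 2) := h3.trans (le_of_eq (by ring))
        exact le_of_mul_le_mul_left h6 hc
      rw [div_le_iff₀ hN1'] at h5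
      linarith
    have hN2' : (1 : ℝ) ≤ N := by
      have h2 : ε₀ * (N + 1) ≤ 1 * (N + 1) := mul_le_mul_of_nonneg_right hε₀1 hN1'.le
      linarith
    have hnN : (n : ℝ) ≤ ε₀ * N := by nlinarith
    have hnN' : n ≤ N := by
      have h2 : ε₀ * N ≤ 1 * N := mul_le_mul_of_nonneg_right hε₀1 (by linarith)
      have h3 : (n : ℝ) ≤ N := by linarith
      exact_mod_cast h3
    have hgn1 : g ^ n ≠ 1 := by
      intro h
      apply hg1
      apply eq_one_of hU
      intro k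
      have h2 : g ^ k = g ^ (k % n) := by
        conv_lhs => rw [← Nat.div_add_mod k n, pow_add, pow_mul, h, one_pow, one_mul]
      rw [h2]
      have h3 := Nat.mod_lt k hn
      exact hNU _ (by omega)
    obtain ⟨J, hJ, hJU, -⟩ := esc_eq hU hgn1
    have hrem : g ^ ((N + 1) % n) ∈ V := by
      apply hN₀ g N hNU
      have h2 : (N + 1) % n < n := Nat.mod_lt _ hn
      have h3 : (((N + 1) % n : ℕ) : ℝ) < n := by exact_mod_cast h2
      linarith
    have hq : ε₀ * J < (((N + 1) / n : ℕ) : ℝ) := by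
      by_contra hle
      push Not at hle
      have h2 := hN₀ (g ^ n) J hJU ((N + 1) / n) hle
      have h3 := hVU _ h2 _ hrem
      rw [← pow_mul, ← pow_add, Nat.div_add_mod] at h3
      exact hNn h3
    have hq2 : ε₀ * J * n ≤ N + 1 := by
      have h2 : (((N + 1) / n : ℕ) : ℝ) ≤ ((N + 1 : ℕ) : ℝ) / n := Nat.cast_div_le
      push_cast at h2
      have h3 := hq.le.trans h2
      rwa [le_div_iff₀ (by positivity)] at h3
    have hJ1 : (0 : ℝ) < (J : ℝ) + 1 := by positivity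
    have h7 : ε₀ * n * (J + 1) ≤ 2 * (N + 1) := by
      have h8 : ε₀ * n ≤ 1 * n := mul_le_mul_of_nonneg_right hε₀1 (by positivity)
      have h9 : (n : ℝ) ≤ N := by exact_mod_cast hnN'
      nlinarith
    have h8 : c * (1 / ((J : ℝ) + 1)) ≤ ν (g ^ n) := by
      rw [← hJ]
      exact hlow _
    have h9 : ν g ≤ 1 / ((N : ℝ) + 1) := by
      rw [← hN]
      exact hself g
    have h10 : (n : ℝ) * ν g ≤ 2 / (c * ε₀) * ν (g ^ n) := by
      have h11 : (n : ℝ) * ν g ≤ n / (N + 1) := by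
        refine (mul_le_mul_of_nonneg_left h9 (by positivity)).trans (le_of_eq ?_)
        ring
      have h12 : 2 / (c * ε₀) * (c * (1 / ((J : ℝ) + 1))) ≤ 2 / (c * ε₀) * ν (g ^ n) :=
        mul_le_mul_of_nonneg_left h8 (by positivity)
      have h13 : 2 / (c * ε₀) * (c * (1 / ((J : ℝ) + 1))) = 2 / (ε₀ * (J + 1)) := by
        field_simp
      rw [h13] at h12
      have h14 : (n : ℝ) / (N + 1) ≤ 2 / (ε₀ * (J + 1)) := by
        rw [div_le_div_iff₀ hN1' (by positivity)]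
        linarith
      linarith
    refine h10.trans (mul_le_mul_of_nonneg_right hC1 (hnn _))
  · intro g h hh
    have h1 : esc U (h * g * h⁻¹) ≤ 2 / ε₃ * esc U g := by
      by_cases hg1 : g = 1
      · subst hg1
        rw [mul_one, mul_inv_cancel]
        have h2 : esc U (1 : Q) = 0 := by
          refine le_antisymm ?_ (he0 1)
          refine le_of_forall_pos_le_add fun ε hε => ?_
          obtain ⟨n, hn⟩ := exists_nat_one_div_lt hε
          rw [zero_add]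
          refine (esc_le fun i _ => ?_).trans hn.le
          rw [one_pow]
          exact mem_of_mem_nhds hU.nhd
        rw [h2, mul_zero]
      obtain ⟨n, hn, hnU, -⟩ := esc_eq hU hg1
      have hn1 : (0 : ℝ) < (n : ℝ) + 1 := by positivity
      have h2 : esc U (h * g * h⁻¹) ≤ 1 / ((⌊ε₃ * n⌋₊ : ℝ) + 1) := by
        apply esc_le
        intro i hi
        rw [conj_pow]
        apply hV'U _ _ h hh
        apply hN₃ g n hnU
        have h3 : (i : ℝ) ≤ ⌊ε₃ * n⌋₊ := by exact_mod_cast hi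
        exact h3.trans (Nat.floor_le (by positivity))
      refine h2.trans ?_
      rw [hn, div_mul_div_comm, mul_one, div_le_div_iff₀ (by positivity) (by positivity), one_mul]
      have h3 : ε₃ * n < (⌊ε₃ * n⌋₊ : ℝ) + 1 := Nat.lt_floor_add_one _
      have h4 : (1 : ℝ) ≤ (⌊ε₃ * n⌋₊ : ℝ) + 1 := by
        have : (0 : ℝ) ≤ (⌊ε₃ * n⌋₊ : ℝ) := Nat.cast_nonneg _
        linarith
      nlinarith
    have h2 : ν (h * g * h⁻¹) ≤ 2 / (c * ε₃) * ν g := by
      have h3 : esc U g ≤ ν g / c := by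
        rw [le_div_iff₀ hc]
        linarith [hlow g]
      calc ν (h * g * h⁻¹) ≤ esc U (h * g * h⁻¹) := hself _
        _ ≤ 2 / ε₃ * esc U g := h1
        _ ≤ 2 / ε₃ * (ν g / c) := mul_le_mul_of_nonneg_left h3 (by positivity)
        _ = 2 / (c * ε₃) * ν g := by field_simp
    exact h2.trans (mul_le_mul_of_nonneg_right hC2 (hnn _))

end Pool.Agent.H74.GY
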