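import Pool.Agent.H74.GY.Base

/-!
# MP_c39b0e_gt: module ULM (ultralimits are one-parameter groups)
-/

set_option autoImplicit false

open Filter Topology MeasureTheory Set
open scoped Pointwise

universe u v

namespace Pool.Agent.H74.GY

open Pool.Agent.H95.GY

section Alg

variable {Q : Type u} [Group Q]

theorem extend_hom (Y : ℝ → Q) (hY : ∀ s t, 0 ≤ s → 0 ≤ t → Y (s + t) = Y s * Y t) :
    ∃ X : ℝ → Q, (∀ t, 0 ≤ t → X t = Y t) ∧ (∀ t, t ≤ 0 → X t = (Y (-t))⁻¹) ∧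
      ∀ s t, X (s + t) = X s * X t := by
  have h0 : Y 0 = 1 := by
    have h1 := hY 0 0 le_rfl le_rfl
    rw [add_zero] at h1
    exact left_eq_mul.1 h1
  have hc : ∀ s t, 0 ≤ s → 0 ≤ t → Commute (Y s) (Y t) := by
    intro s t hs ht
    rw [Commute, SemiconjBy, ← hY s t hs ht, ← hY t s ht hs, add_comm]
  refine ⟨fun t => Y (max t 0) * (Y (max (-t) 0))⁻¹, ?_, ?_, ?_⟩
  · intro t ht
    simp only [max_eq_left ht, max_eq_right (neg_nonpos.2 ht), h0, inv_one, mul_one]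
  · intro t ht
    simp only [max_eq_right ht, max_eq_left (neg_nonneg.2 ht), h0, one_mul]
  · intro s t
    simp only
    have e : max (s + t) 0 + (max (-s) 0 + max (-t) 0) =
        max (-(s + t)) 0 + (max s 0 + max t 0) := by
      have f : ∀ y : ℝ, max y 0 - max (-y) 0 = y := by
        intro y
        rcases le_total 0 y with hy | hy
        · rw [max_eq_left hy, max_eq_right (neg_nonpos.2 hy), sub_zero]
        · rw [max_eq_right hy, max_eq_left (neg_nonneg.2 hy)]; ring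
      have f1 := f s
      have f2 := f t
      have f3 := f (s + t)
      linarith
    have n1 : (0 : ℝ) ≤ max (s + t) 0 := le_max_right _ _
    have n2 : (0 : ℝ) ≤ max (-(s + t)) 0 := le_max_right _ _
    have n3 : (0 : ℝ) ≤ max s 0 := le_max_right _ _
    have n4 : (0 : ℝ) ≤ max t 0 := le_max_right _ _
    have n5 : (0 : ℝ) ≤ max (-s) 0 := le_max_right _ _
    have n6 : (0 : ℝ) ≤ max (-t) 0 := le_max_right _ _
    have e2 := congrArg Y e
    rw [hY _ _ n1 (add_nonneg n5 n6), hY _ _ n5 n6, hY _ _ n2 (add_nonneg n3 n4),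
      hY _ _ n3 n4] at e2
    generalize Y (max (s + t) 0) = A at *
    have c1 : Commute (Y (max (-(s + t)) 0)) (Y (max s 0) * Y (max t 0)) :=
      (hc _ _ n2 n3).mul_right (hc _ _ n2 n4)
    have c2 : Commute (Y (max (-(s + t)) 0)) (Y (max (-s) 0) * Y (max (-t) 0)) :=
      (hc _ _ n2 n5).mul_right (hc _ _ n2 n6)
    have c3 : Commute (Y (max (-s) 0)) (Y (max t 0)) := hc _ _ n5 n4
    have c4 : Commute (Y (max (-s) 0)) (Y (max (-t) 0)) := hc _ _ n5 n6
    generalize Y (max (-(s + t)) 0) = B at *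
    generalize Y (max s 0) = P at *
    generalize Y (max t 0) = P' at *
    generalize Y (max (-s) 0) = M at *
    generalize Y (max (-t) 0) = M' at *
    have e3 : A = B * (P * P') * (M * M')⁻¹ := by
      rw [← e2, mul_assoc, mul_inv_cancel, mul_one]
    have e4 : A * B⁻¹ = P * P' * (M * M')⁻¹ := by
      rw [e3]
      have c5 : Commute B (P * P' * (M * M')⁻¹) := c1.mul_right c2.inv_right
      rw [mul_assoc B, c5.eq, mul_inv_cancel_right]
    rw [e4]
    have c6 : M⁻¹ * P' = P' * M⁻¹ := c3.inv_left.eq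
    have c7 : (M * M')⁻¹ = M⁻¹ * M'⁻¹ := by
      rw [c4.eq, mul_inv_rev]
    rw [c7, mul_assoc P M⁻¹, ← mul_assoc M⁻¹ P', c6]
    simp only [mul_assoc]

theorem nu_pow_le {ν : Q → ℝ} (one : ν 1 = 0) (mul : ∀ g h, ν (g * h) ≤ ν g + ν h) (g : Q)
    (m : ℕ) : ν (g ^ m) ≤ m * ν g := by
  induction m with
  | zero => simp [one]
  | succ m ih =>
    rw [pow_succ]
    have := mul (g ^ m) g
    push_cast
    linarith

end Alg

section

variable {Q : Type u} [Group Q] [TopologicalSpace Q]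

theorem second_diff {ν φ : Q → ℝ} {r C : ℝ} (hG : GD ν φ r C) (g x : Q) :
    ∀ m : ℕ, m * ν g ≤ r → |φ (g ^ m * x) - φ x - m * (φ (g * x) - φ x)| ≤ C * (m * ν g) ^ 2 := by
  have hC : 0 < C := lt_of_lt_of_le one_pos hG.C_pos
  have hr := hG.r_pos
  have hg := hG.nonneg g
  intro m
  induction m with
  | zero =>
    intro _
    simp
  | succ m ih =>
    intro hm
    push_cast at hm
    have hm1 : m * ν g ≤ r := by linarith
    have e1 := ih hm1
    have e2 := hG.sec (g ^ m) g x ((nu_pow_le hG.one hG.mul g m).trans hm1)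
    rw [mul_assoc] at e2
    have e3 : C * ν (g ^ m) * ν g ≤ C * (m * ν g) * ν g := by
      have := nu_pow_le hG.one hG.mul g m
      gcongr
    have e4 : φ (g ^ (m + 1) * x) - φ x - ((m : ℝ) + 1) * (φ (g * x) - φ x) =
        (φ (g ^ m * (g * x)) - φ (g ^ m * x) - φ (g * x) + φ x) +
          (φ (g ^ m * x) - φ x - m * (φ (g * x) - φ x)) := by
      rw [pow_succ, mul_assoc]
      ring
    push_cast
    rw [e4]
    refine (abs_add_le _ _).trans ?_
    have hm0 : (0 : ℝ) ≤ m := Nat.cast_nonneg m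
    nlinarith [mul_nonneg hC.le (mul_nonneg hm0 (mul_nonneg hg hg)),
      mul_nonneg hC.le (mul_nonneg hg hg)]

end

theorem floor_split (a b : ℝ) (ha : 0 ≤ a) (hb : 0 ≤ b) :
    ∃ δ : ℕ, δ ≤ 1 ∧ ⌊a + b⌋₊ = ⌊a⌋₊ + ⌊b⌋₊ + δ := by
  have h1 : ⌊a⌋₊ + ⌊b⌋₊ ≤ ⌊a + b⌋₊ := by
    apply Nat.le_floor
    push_cast
    exact add_le_add (Nat.floor_le ha) (Nat.floor_le hb)
  have h2 : ⌊a + b⌋₊ < ⌊a⌋₊ + ⌊b⌋₊ + 2 := by
    rw [Nat.floor_lt (add_nonneg ha hb)]
    push_cast
    linarith [Nat.lt_floor_add_one a, Nat.lt_floor_add_one b]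
  exact ⟨⌊a + b⌋₊ - (⌊a⌋₊ + ⌊b⌋₊), by omega, by omega⟩

theorem pf_ULM' (hDD : T_DD.{u}) : T_ULM.{u} := by
  intro Q _ _ _ _ ν φ r C hG ω g N R hN hR
  have hP : PreG ν r C := hG.toPreG
  have hr := hP.r_pos
  have hC : 0 < C := lt_of_lt_of_le one_pos hP.C_pos
  have hR0 : 0 ≤ R := by
    obtain ⟨i, hi⟩ := hR.exists
    exact (mul_nonneg (Nat.cast_nonneg _) (hP.nonneg _)).trans hi
  have hNr : Tendsto (fun i => (N i : ℝ)) ω atTop := tendsto_natCast_atTop_atTop.comp hN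
  have hν0 : Tendsto (fun i => ν (g i)) ω (𝓝 0) := by
    have h1 : Tendsto (fun i => R / (N i : ℝ)) ω (𝓝 0) := hNr.const_div_atTop R
    refine tendsto_of_tendsto_of_tendsto_of_le_of_le' tendsto_const_nhds h1
      (Eventually.of_forall fun i => hP.nonneg _) ?_
    filter_upwards [hR, hNr.eventually_gt_atTop 0] with i hi hi0
    rw [le_div_iff₀ hi0]
    linarith
  have hrem : ∀ (K : ℕ) (ρ : ℕ → ℕ), (∀ i, ρ i ≤ K) →
      Tendsto (fun i => g i ^ ρ i) ω (𝓝 1) := by
    intro K ρ hρ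
    apply tendsto_one hP
    have h1 : Tendsto (fun i => (K : ℝ) * ν (g i)) ω (𝓝 0) := by
      have := hν0.const_mul (K : ℝ)
      rwa [mul_zero] at this
    refine squeeze_zero (fun i => hP.nonneg _) (fun i => ?_) h1
    refine (nu_pow_le hP.one hP.mul _ _).trans ?_
    have : (ρ i : ℝ) ≤ K := by exact_mod_cast hρ i
    exact mul_le_mul_of_nonneg_right this (hP.nonneg _)
  have hbd : ∀ t : ℝ, 0 ≤ t → ∀ᶠ i in (ω : Filter ℕ), (⌊t * N i⌋₊ : ℝ) * ν (g i) ≤ R * t := by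
    intro t ht
    filter_upwards [hR] with i hi
    have h1 : (⌊t * N i⌋₊ : ℝ) ≤ t * N i := Nat.floor_le (by positivity)
    have h2 := mul_le_mul_of_nonneg_right h1 (hP.nonneg (g i))
    nlinarith [mul_le_mul_of_nonneg_left hi ht]
  have hex : ∀ t : ℝ, ∃ x, 0 ≤ t → Tendsto (fun i => g i ^ ⌊t * N i⌋₊) ω (𝓝 x) := by
    intro t
    by_cases ht : 0 ≤ t
    swap
    · exact ⟨1, fun h => absurd h ht⟩
    obtain ⟨k, hk⟩ := exists_nat_gt (R * t / r)
    have hk0 : (0 : ℝ) < k := lt_of_le_of_lt (by positivity) hk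
    have hkN : 0 < k := by exact_mod_cast hk0
    have h1 : ∀ᶠ i in (ω : Filter ℕ), ν (g i ^ ⌊t / k * N i⌋₊) ≤ r := by
      filter_upwards [hbd (t / k) (by positivity)] with i hi
      refine (nu_pow_le hP.one hP.mul _ _).trans (hi.trans ?_)
      rw [← mul_div_assoc, div_le_iff₀ hk0]
      rw [div_lt_iff₀ hr] at hk
      linarith
    obtain ⟨y, hy⟩ := exists_lim hP h1
    refine ⟨y ^ k * 1, fun _ => ?_⟩
    have h2 := (hy.pow k).mul (hrem k (fun i => ⌊t * N i⌋₊ % k) fun i => (Nat.mod_lt _ hkN).le)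
    refine h2.congr fun i => ?_
    have h3 : ⌊t / k * N i⌋₊ = ⌊t * N i⌋₊ / k := by
      rw [← Nat.floor_div_natCast]
      congr 1
      ring
    rw [h3, ← pow_mul, ← pow_add]
    congr 1
    rw [mul_comm]
    exact Nat.div_add_mod _ _
  choose Y hY using hex
  have hYadd : ∀ s t, 0 ≤ s → 0 ≤ t → Y (s + t) = Y s * Y t := by
    intro s t hs ht
    have hsp : ∀ i, ∃ δ : ℕ, δ ≤ 1 ∧ ⌊(s + t) * N i⌋₊ = ⌊s * N i⌋₊ + ⌊t * N i⌋₊ + δ := by
      intro i
      rw [add_mul]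
      exact floor_split _ _ (by positivity) (by positivity)
    choose δ hδ1 hδ2 using hsp
    have h1 := ((hY s hs).mul (hY t ht)).mul (hrem 1 δ hδ1)
    rw [mul_one] at h1
    refine tendsto_nhds_unique (hY (s + t) (add_nonneg hs ht)) (h1.congr fun i => ?_)
    rw [hδ2, pow_add, pow_add]
  have hYb : ∀ t, 0 ≤ t → ν (Y t) ≤ R * t := by
    intro t ht
    have h1 := ((nu_cont hP).tendsto (Y t)).comp (hY t ht)
    refine le_of_tendsto h1 ?_
    filter_upwards [hbd t ht] with i hi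
    exact (nu_pow_le hP.one hP.mul _ _).trans hi
  obtain ⟨X, hX1, hX2, hadd⟩ := extend_hom Y hYadd
  have hXb : ∀ t, ν (X t) ≤ R * |t| := by
    intro t
    rcases le_total 0 t with ht | ht
    · rw [hX1 t ht, abs_of_nonneg ht]
      exact hYb t ht
    · rw [hX2 t ht, abs_of_nonpos ht, hP.inv]
      exact hYb (-t) (neg_nonneg.2 ht)
  have hops : IsOPS X := ops_of hP hadd hXb
  obtain ⟨C', hC', hD'⟩ := hDD Q ν φ r C hG
  obtain ⟨D, -, hD⟩ := hD' X R hops hR0 hXb
  have hr1 : 0 < r / (R + 1) := by positivity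
  have hsmall : ∀ t : ℝ, |t| ≤ r / (R + 1) → R * |t| ≤ r := by
    intro t ht
    rw [le_div_iff₀ (by positivity)] at ht
    nlinarith [abs_nonneg t]
  have hXlim : ∀ t : ℝ, 0 ≤ t → Tendsto (fun i => g i ^ ⌊t * N i⌋₊) ω (𝓝 (X t)) := by
    intro t ht
    rw [hX1 t ht]
    exact hY t ht
  refine ⟨X, D, ⟨hops, C' * R ^ 2 + 1, by positivity, r / (R + 1), hr1, fun t x ht => ?_⟩,
    hXlim, hXb, fun ε hε => ?_⟩
  · refine (hD t x (hsmall t ht)).trans ?_
    nlinarith [sq_nonneg t]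
  · have hq : 0 < 2 * (C + C') * R ^ 2 + 1 := by positivity
    obtain ⟨t, htdef⟩ : ∃ t, t = min (r / (R + 1)) (ε / (2 * (C + C') * R ^ 2 + 1)) := ⟨_, rfl⟩
    have ht0 : 0 < t := by
      rw [htdef]
      exact lt_min hr1 (div_pos hε hq)
    have ht1 : |t| ≤ r / (R + 1) := by
      rw [abs_of_pos ht0, htdef]
      exact min_le_left _ _
    have ht2 : 2 * (C + C') * R ^ 2 * t + t ≤ ε := by
      have : t ≤ ε / (2 * (C + C') * R ^ 2 + 1) := by
        rw [htdef]
        exact min_le_right _ _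
      rw [le_div_iff₀ hq] at this
      linarith
    have htr : R * t ≤ r := by
      have := hsmall t ht1
      rwa [abs_of_pos ht0] at this
    have h1 := nu_tendsto hP (hXlim t ht0.le)
    have h2 : ∀ᶠ i in (ω : Filter ℕ), ν (g i ^ ⌊t * N i⌋₊ * (X t)⁻¹) < t * ε / (4 * C) :=
      h1 (Iio_mem_nhds (by positivity))
    have h3 : ∀ᶠ i in (ω : Filter ℕ), ν (g i) < t * ε / (4 * C) :=
      hν0 (Iio_mem_nhds (by positivity))
    filter_upwards [h2, h3, hbd t ht0.le] with i hi2 hi3 hi4 x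
    obtain ⟨m, hm⟩ : ∃ m, m = ⌊t * N i⌋₊ := ⟨_, rfl⟩
    rw [← hm] at hi2 hi4
    have e1 := second_diff hG (g i) x m (hi4.trans htr)
    have e2 := hD t x (hsmall t ht1)
    have e3 := hG.lip (g i ^ m * (X t)⁻¹) (X t * x)
    have e4 : g i ^ m * (X t)⁻¹ * (X t * x) = g i ^ m * x := by group
    rw [e4] at e3
    have e5 := hG.lip (g i) x
    have e6 : |t * N i - m| ≤ 1 := by
      have f1 : (m : ℝ) ≤ t * N i := by
        rw [hm]
        exact Nat.floor_le (by positivity)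
      have f2 : t * N i < m + 1 := by
        rw [hm]
        exact Nat.lt_floor_add_one _
      rw [abs_le]
      constructor <;> linarith
    have e7 : t * (N i * (φ (g i * x) - φ x) - D x) = (t * N i - m) * (φ (g i * x) - φ x) -
        (φ (g i ^ m * x) - φ x - m * (φ (g i * x) - φ x)) + (φ (g i ^ m * x) - φ (X t * x)) +
        (φ (X t * x) - φ x - t * D x) := by ring
    have e8 : |(t * N i - m) * (φ (g i * x) - φ x)| ≤ C * ν (g i) := by
      rw [abs_mul]
      calc |t * N i - m| * |φ (g i * x) - φ x| ≤ 1 * (C * ν (g i)) := by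
            gcongr
        _ = C * ν (g i) := one_mul _
    have e9 : |t * (N i * (φ (g i * x) - φ x) - D x)| ≤ C * ν (g i) + C * (m * ν (g i)) ^ 2 +
        C * ν (g i ^ m * (X t)⁻¹) + C' * R ^ 2 * t ^ 2 := by
      rw [e7]
      refine (abs_add_le _ _).trans (add_le_add ?_ e2)
      refine (abs_add_le _ _).trans (add_le_add ?_ e3)
      exact (abs_sub _ _).trans (add_le_add e8 e1)
    have e10 : C * ν (g i) ≤ t * (ε / 4) := by
      refine (mul_le_mul_of_nonneg_left hi3.le hC.le).trans (le_of_eq ?_)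
      field_simp
    have e11 : C * ν (g i ^ m * (X t)⁻¹) ≤ t * (ε / 4) := by
      refine (mul_le_mul_of_nonneg_left hi2.le hC.le).trans (le_of_eq ?_)
      field_simp
    have e12 : C * (m * ν (g i)) ^ 2 ≤ C * (R * t) ^ 2 := by
      have : 0 ≤ (m : ℝ) * ν (g i) := mul_nonneg (Nat.cast_nonneg _) (hP.nonneg _)
      gcongr
    rw [abs_mul, abs_of_pos ht0] at e9
    have e13 : t * |N i * (φ (g i * x) - φ x) - D x| ≤ t * ε := by
      have f3 : t * (2 * (C + C') * R ^ 2 * t + t) ≤ t * ε :=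
        mul_le_mul_of_nonneg_left ht2 ht0.le
      nlinarith [sq_nonneg t]
    exact le_of_mul_le_mul_left e13 ht0

theorem pf_ULM (_hRHO : T_RHO.{u}) (hDD : T_DD.{u}) : T_ULM.{u} := pf_ULM' hDD

end Pool.Agent.H74.GY
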